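import Pool.Agent.H1.SP.E11

/-!
# Twists of analytic rank zero by products of primes with an even number of points

Let `E : y² = x³ + a x + b` be an elliptic curve over `ℚ` with newform `f` of level `N`. A prime `r` of
good reduction is called *split* if it splits in `ℚ(√-N)`, and *odd* (*even*) if the number of the
points of `E` over `𝔽_r` is odd (even). All known theorems of nonvanishing by means of modular symbols
modulo two, for curves without rational points of order two, are about the twists by products of odd
primes (after a fixed twist): Ono, Boxer and Diao, Zhai, and in the library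
`MP_8b7eba_nt.TwistGroups`. If `p` is an even prime, the central value of the twist by `p` is even, and
for products of `k` even primes it is divisible by a high power of `2`, so that no congruence modulo two
shows anything.

Here `S` is ANY finite set of split primes, with `k` even ones among them, which can be all of them.
Suppose that some odd multiple of `L(E, 1)` (by the number of the points modulo a good prime) is a period
which is not twice a period; this is the case for `X_0(11)`. Let `H` be a group of discriminants composed of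
odd split primes `q ≡ 1` modulo `4` on which the quadratic symbols of the `k` even primes in `S` are
independent. Then `H` has a subgroup `K` of order at most `2 ^ k` such that for every `h ∈ H` there is
`κ ∈ K` with `L(E^D, 1) ≠ 0` for the discriminant `D` of `S ∆ (h ∆ κ)`. So at least the proportion
`2 ^ (-k)` of the twists by `disc S · h`, `h ∈ H`, has analytic rank `0`, no nonvanishing being assumed
for the twist by `disc S`. By Kolyvagin's theorem the rank form of the conjecture of Birch and
Swinnerton-Dyer holds for these twists.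

The proof (`Pool/Agent/H1/SP`). The sum of the modular symbols against a character whose conductor is
divisible by `k` even primes is written, by inclusion and exclusion over the subsets of the even primes
and with the Hecke relations, as `2 ^ k` times an integral combination `Y` of the characters of the group
`H`. Modulo two the sum over the classes `u` which are squares modulo the even primes collapses, by the
involution `u ↦ -1/(N u)` of Atkin and Lehner, to its fixed points, and on them all elements of `H` have the
same character. So up to a character and modulo two `Y` is a combination of the products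
of the symbols of the even primes, and the coefficient of the product of all of them is odd. Hence the
`k`-th difference of `Y` in the directions dual to the symbols is `2 ^ k` times an odd number.
-/

set_option autoImplicit false

open UpperHalfPlane MatrixGroups CongruenceSubgroup
open scoped symmDiff

namespace Pool.Agent.H1.Old.SplitPrimeTwists

open Pool.Agent.W263.BSD (pointCount GoodPrime IsLSeries)
open Pool.Agent.Y18.BSD (IsFormOf RankZero disc bv PG)

/-- `L(E, 1) ≠ 0` for `E : y² = x³ + a x + b`: there is an entire function with the Euler product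
`∏_{p ∤ 2Δ} (1 - a_p p^{-s} + p^{1-2s})⁻¹` for `Re s > 3/2`, and it does not vanish at `1` -/
def AnalyticRankZero (a b : ℤ) : Prop := ∃ F : ℂ → ℂ, IsLSeries a b F ∧ F 1 ≠ 0

/-- the number of the points of `E` modulo some good prime `p` (with the point at infinity) times
`bv f 0`, which is `L(f, 1)` up to sign, is not twice a period of `f` -/
def OddPeriod (a b : ℤ) {N : ℕ} [NeZero N] (f : CuspForm (Gamma0 N : Subgroup (GL (Fin 2) ℝ)) 2) : Prop :=
  ∃ p : ℕ, GoodPrime a b p ∧ ∀ ω ∈ PG f, ((pointCount a b p : ℂ) + 1) * bv f 0 ≠ 2 * ω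

/-- a prime of good reduction which splits in `ℚ(√-N)` -/
def SplitPrime (a b : ℤ) (N r : ℕ) : Prop := GoodPrime a b r ∧ jacobiSym (-(N : ℤ)) r = 1

/-- the number of the points of `E` over the field with `r` elements (with the point at infinity) -/
noncomputable def points (a b : ℤ) (r : ℕ) : ℕ := pointCount a b r + 1

/-- a group of finite sets under symmetric difference -/
def IsGroup (H : Set (Finset ℕ)) : Prop := ∅ ∈ H ∧ ∀ S ∈ H, ∀ T ∈ H, S ∆ T ∈ H

/-- **Theorem.** -/
theorem result :
    (∀ (a b : ℤ) (N : ℕ) [NeZero N] (f : CuspForm (Gamma0 N : Subgroup (GL (Fin 2) ℝ)) 2),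
      4 * a ^ 3 + 27 * b ^ 2 ≠ 0 → IsFormOf a b N f → OddPeriod a b f →
      ∀ S : Finset ℕ, (∀ r ∈ S, SplitPrime a b N r) →
      ∀ H : Set (Finset ℕ), IsGroup H →
        (∀ T ∈ H, ∀ q ∈ T, SplitPrime a b N q ∧ Odd (points a b q) ∧ q % 4 = 1) →
        (∀ p ∈ S, Even (points a b p) → ∃ T ∈ H, ∀ p' ∈ S, Even (points a b p') →
          jacobiSym (p' : ℤ) (∏ q ∈ T, q) = if p' = p then -1 else 1) →
      ∃ K : Finset (Finset ℕ), K.card ≤ 2 ^ (S.filter (fun p => Even (points a b p))).card ∧
        IsGroup (K : Set (Finset ℕ)) ∧ (∀ T ∈ K, T ∈ H) ∧ ∀ T ∈ H, ∃ κ ∈ K,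
          AnalyticRankZero (a * disc (S ∆ (T ∆ κ)) ^ 2) (b * disc (S ∆ (T ∆ κ)) ^ 3)) ∧
    ∃ f : CuspForm (Gamma0 11 : Subgroup (GL (Fin 2) ℝ)) 2,
      IsFormOf (-13392) (-1080432) 11 f ∧ OddPeriod (-13392) (-1080432) f := by
  classical
  refine ⟨?_, _, Pool.Agent.Y18.BSD.Eleven.isFormOf, Pool.Agent.H1.SP.oddPeriod11⟩
  intro a b N _ f hΔ hf ho S hS H hH hHp hdual
  have hpar : ∀ p : ℕ, Odd (pointCount a b p) ↔ Even (points a b p) := by
    intro p
    unfold points
    rw [Nat.even_add_one, Nat.not_even_iff_odd]
  have hpar' : ∀ p : ℕ, Even (pointCount a b p) ↔ Odd (points a b p) := by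
    intro p
    rw [← Nat.not_odd_iff_even, hpar, Nat.not_even_iff_odd]
  have hd : ∀ p : ℕ, ∃ T ∈ H, p ∈ S → Even (points a b p) → ∀ p' ∈ S, Even (points a b p') →
      jacobiSym (p' : ℤ) (∏ q ∈ T, q) = if p' = p then -1 else 1 := by
    intro p
    by_cases h : p ∈ S ∧ Even (points a b p)
    · obtain ⟨T, hT, h1⟩ := hdual p h.1 h.2
      exact ⟨T, hT, fun _ _ => h1⟩
    · exact ⟨∅, hH.1, fun h1 h2 => absurd ⟨h1, h2⟩ h⟩
  choose g hgH hg using hd
  set L : List (Finset ℕ) := (S.filter (fun p => Odd (pointCount a b p))).toList.map g with hL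
  have hLH : ∀ T ∈ L, T ∈ H := by
    intro T hT
    rw [hL, List.mem_map] at hT
    obtain ⟨p, -, rfl⟩ := hT
    exact hgH p
  have hcard : L.length = (S.filter (fun p => Even (points a b p))).card := by
    rw [hL, List.length_map, Finset.length_toList]
    congr 1
    exact Finset.filter_congr fun p _ => hpar p
  refine ⟨Pool.Agent.Y18.BSD.spanL L, ?_, ⟨?_, ?_⟩, ?_, ?_⟩
  · rw [← hcard]
    exact Pool.Agent.Y18.BSD.spanL_card L
  · exact Finset.mem_coe.2 (Pool.Agent.Y18.BSD.spanL_empty L)
  · intro A hA B hB
    exact Finset.mem_coe.2 (Pool.Agent.Y18.BSD.spanL_closed L A (Finset.mem_coe.1 hA) B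
      (Finset.mem_coe.1 hB))
  · exact Pool.Agent.Y18.BSD.spanL_sub hH.1 hH.2 L hLH
  · intro T hT
    have hmem : ∀ p : ℕ, p ∈ S ∆ T → Odd (pointCount a b p) → p ∈ S := by
      intro p hp hpo
      rcases Finset.mem_symmDiff.1 hp with h | h
      · exact h.1
      · exact absurd ((hpar p).1 hpo) (Nat.not_even_iff_odd.2 (hHp T hT p h.1).2.1)
    have hfil : (S ∆ T).filter (fun p => Odd (pointCount a b p)) =
        S.filter (fun p => Odd (pointCount a b p)) := by
      ext p
      rw [Finset.mem_filter, Finset.mem_filter]
      constructor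
      · rintro ⟨h1, h2⟩
        exact ⟨hmem p h1 h2, h2⟩
      · rintro ⟨h1, h2⟩
        refine ⟨Finset.mem_symmDiff.2 (Or.inl ⟨h1, fun h3 => ?_⟩), h2⟩
        exact absurd ((hpar p).1 h2) (Nat.not_even_iff_odd.2 (hHp T hT p h3).2.1)
    obtain ⟨κ, hκ, h1⟩ := Pool.Agent.H1.SP.curve_main hΔ hf ho (S ∆ T) (by
      intro q hq
      rcases Finset.mem_symmDiff.1 hq with h | h
      · exact hS q h.1
      · exact (hHp T hT q h.1).1) g (by
      intro p _ _ q hq
      obtain ⟨h1, h2, h3⟩ := hHp (g p) (hgH p) q hq
      exact ⟨h1.1, h1.2, (hpar' q).2 h2, h3⟩) (by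
      intro p hp hpo p' hp' hpo'
      exact hg p (hmem p hp hpo) ((hpar p).1 hpo) p' (hmem p' hp' hpo') ((hpar p').1 hpo'))
    rw [hfil] at hκ
    refine ⟨κ, hκ, ?_⟩
    rw [← symmDiff_assoc]
    exact h1

end Pool.Agent.H1.Old.SplitPrimeTwists
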